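import Pool.Agent.Run7.h77.RO.Defs

/-! # RO (helper77), pieces DR2 and DA (helper24) -/

set_option autoImplicit false

namespace Run7.h24.RO

open Run7.h77.RO Finset

section
variable {p : ℕ} {B w v : ℕ} {H : SimpleGraph (Fin w)}

theorem Hn_symm (x y : ℕ) : Hn H x y ↔ Hn H y x :=
  ⟨fun ⟨h1, h2, h⟩ => ⟨h2, h1, h.symm⟩, fun ⟨h1, h2, h⟩ => ⟨h2, h1, h.symm⟩⟩

open Classical in
theorem cnt_congr (k : Kd p) (x : ℕ) (k' : Kd p) (P : ℕ → Prop)
    (h : ∀ y < sz B w v k', A2 B w v H k x k' y ↔ P y) :
    cnt B w v H k x k' = ((range (sz B w v k')).filter P).card := by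
  unfold cnt
  congr 1
  exact filter_congr (fun y hy => h y (mem_range.1 hy))

theorem cnt_zero (k : Kd p) (x : ℕ) (k' : Kd p) (h : ∀ y < sz B w v k', ¬ A2 B w v H k x k' y) :
    cnt B w v H k x k' = 0 := by
  classical
  unfold cnt
  rw [card_eq_zero, filter_eq_empty_iff]
  intro y hy
  exact h y (mem_range.1 hy)

open Classical in
theorem card_or (M : ℕ) (R P Q : ℕ → Prop) (hR : ∀ y, R y ↔ P y ∨ Q y) (h : ∀ y < M, P y → ¬ Q y) :
    ((range M).filter R).card = ((range M).filter P).card + ((range M).filter Q).card := by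
  rw [filter_congr (fun y _ => hR y), filter_or, card_union_of_disjoint]
  rw [disjoint_filter]
  intro y hy
  exact h y (mem_range.1 hy)

open Classical in
theorem card_int (M a b : ℕ) (P : ℕ → Prop) (hb : b ≤ M) (h : ∀ y < M, P y ↔ a ≤ y ∧ y < b) :
    ((range M).filter P).card = b - a := by
  have : (range M).filter P = Ico a b := by
    ext y
    rw [mem_filter, mem_range, mem_Ico]
    constructor
    · rintro ⟨h1, h2⟩
      exact (h y h1).1 h2
    · intro h1
      have h2 : y < M := by omega
      exact ⟨h2, (h y h2).2 h1⟩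
  rw [this, Nat.card_Ico]

open Classical in
theorem card_mod (n z w : ℕ) :
    ((range n).filter (fun l => w ≤ (z + l) % n)).card = n - w := by
  have h1 : ((range n).filter (fun l => w ≤ (z + l) % n)).card =
      ((Ico z (z + n)).filter (fun x => w ≤ x % n)).card := by
    refine card_bij (fun l _ => z + l) ?_ ?_ ?_
    · intro l hl
      rw [mem_filter, mem_range] at hl
      rw [mem_filter, mem_Ico]
      exact ⟨by omega, hl.2⟩
    · intro a _ b _ h
      exact Nat.add_left_cancel h
    · intro x hx
      rw [mem_filter, mem_Ico] at hx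
      refine ⟨x - z, ?_, by omega⟩
      rw [mem_filter, mem_range]
      refine ⟨by omega, ?_⟩
      rw [show z + (x - z) = x by omega]
      exact hx.2
  rw [h1, Nat.filter_Ico_card_eq_of_periodic _ _ _ (fun x => by simp), Nat.count_eq_card_filter_range]
  have h2 := card_int n w n (fun x => w ≤ x % n) le_rfl (fun y hy => by
    show w ≤ y % n ↔ _
    rw [Nat.mod_eq_of_lt hy]
    exact ⟨fun h => ⟨h, hy⟩, fun h => h.1⟩)
  rw [← h2]
  congr!

theorem sum_ne (i : Fin p) (D : ℕ) : (∑ j : Fin p, (if j = i then 0 else D)) + D = p * D := by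
  have h1 : ∑ j : Fin p, ((if j = i then 0 else D) + (if j = i then D else 0)) = p * D := by
    rw [sum_congr rfl (fun j _ => show ((if j = i then 0 else D) + (if j = i then D else 0)) = D by
      split_ifs <;> simp)]
    simp
  rw [sum_add_distrib] at h1
  simpa using h1

/-- sparse neighbours -/
theorem sparse (hHN : S_HN) {D : ℕ} (hreg : ∀ c, (H.neighborSet c).ncard = D) (hw : 0 < w)
    (k : Kd p) (x : ℕ) (k' : Kd p) (q : ℕ) (hq : (q + 1) * w ≤ sz B w v k')
    (h : ∀ y < sz B w v k', A2 B w v H k x k' y ↔ q = y / w ∧ Hn H (x % w) (y % w)) :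
    cnt B w v H k x k' = D := by
  rw [cnt_congr k x k' _ h]
  have h1 := hHN w D H hreg (x % w) q _ (Nat.mod_lt _ hw) hq
  convert h1

/-- dense and sparse neighbours -/
theorem dense (hHN : S_HN) {D : ℕ} (hreg : ∀ c, (H.neighborSet c).ncard = D) (hw : 0 < w)
    (k : Kd p) (x : ℕ) (k' : Kd p) (q : ℕ) (hq : (q + 1) * w ≤ sz B w v k') (a b : ℕ)
    (hb : b ≤ sz B w v k') (P : ℕ → Prop)
    (h : ∀ y < sz B w v k', A2 B w v H k x k' y ↔ P y ∨ (q = y / w ∧ Hn H (x % w) (y % w)))
    (hP : ∀ y < sz B w v k', P y ↔ a ≤ y ∧ y < b) (hd : ∀ y, P y → q ≠ y / w) :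
    cnt B w v H k x k' = (b - a) + D := by
  rw [cnt_congr k x k' _ h]
  refine (card_or _ _ P (fun y => q = y / w ∧ Hn H (x % w) (y % w)) (fun _ => Iff.rfl)
    (fun y _ h1 h2 => hd y h1 h2.1)).trans ?_
  rw [card_int _ a b P hb hP]
  have h1 := hHN w D H hreg (x % w) q _ (Nat.mod_lt _ hw) hq
  congr 1
  convert h1

end

theorem t_DR2 (hHN : S_HN) : S_DR2 := by
  intro p B w v m D H hP z hz
  have hw := hP.hw
  have hreg := hP.hreg
  have hv0 : 0 < v := by have := hP.hv; omega
  have hq : z / w < 2 * B := (Nat.div_lt_iff_lt_mul hw).2 hz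
  have hq1 : (z / w + 1) * w ≤ 2 * B * w := Nat.mul_le_mul_right w hq
  have hzq : z / w * w ≤ z := Nat.div_mul_le_self z w
  have hzq2 : z < (z / w + 1) * w := by
    have := Nat.lt_div_mul_add (a := z) hw
    linarith [this, add_mul (z / w) 1 w, one_mul w]
  have hbw : ∀ y q : ℕ, (y / w < q ↔ y < q * w) := fun y q => Nat.div_lt_iff_lt_mul hw
  have hbl : ∀ y q : ℕ, (q ≤ y / w ↔ q * w ≤ y) := fun y q => Nat.le_div_iff_mul_le hw
  have e2B : 2 * B * w = 2 * (B * w) := by ring
  have e1 : (z / w + 1) * w = z / w * w + w := by ring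
  have c2 : cnt B w v H (.r 2 : Kd p) z (.r 2) = 0 := cnt_zero _ _ _ (by
    intro y _
    simp [A2, E])
  have ca : ∀ i : Fin p, cnt B w v H (.r 2 : Kd p) z (.a i) = D := fun i =>
    sparse hHN hreg hw _ _ _ (z / w) (by show _ ≤ 2 * B * w + w; omega) (by
      intro y _
      simp [A2, E])
  have cb : ∀ i : Fin p, cnt B w v H (.r 2 : Kd p) z (.b i) = D := fun i =>
    sparse hHN hreg hw _ _ _ (z / w + 1) (by show _ ≤ 2 * B * w + w; rw [add_mul, one_mul]; omega) (by
      intro y _
      simp [A2, E])
  have cu0 : cnt B w v H (.r 2 : Kd p) z .u0 = 0 := cnt_zero _ _ _ (by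
    intro y _
    simp [A2, E])
  have cu1 : cnt B w v H (.r 2 : Kd p) z .u1 = 0 := cnt_zero _ _ _ (by
    intro y _
    simp [A2, E])
  have cl1 : cnt B w v H (.r 2 : Kd p) z .l1 = 0 := cnt_zero _ _ _ (by
    intro y _
    simp [A2, E])
  have cl2 : cnt B w v H (.r 2 : Kd p) z .l2 = 0 := cnt_zero _ _ _ (by
    intro y _
    simp [A2, E])
  have th1 : th B w 1 = 2 * B * w - 1 := rfl
  have th2 : th B w 2 = 2 * B * w - 1 := rfl
  have hn : 0 < 2 * w * v := by positivity
  have hwn : w ≤ 2 * w * v := by nlinarith
  by_cases hzZ : z < B * w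
  · have hqB : z / w < B := (hbw z B).2 hzZ
    have c0 : cnt B w v H (.r 2 : Kd p) z (.r 0) = (2 * B * w - (2 * B * w - 1 - z)) + D :=
      dense hHN hreg hw _ _ _ (z / w) (by exact hq1) _ _ le_rfl
        (fun y => z / w < y / w ∧ B * w ≤ y ∧ (B * w ≤ z ∨ 2 * B * w - 1 ≤ z + y)) (by
          intro y _
          have := Hn_symm (H := H) (y % w) (z % w)
          simp only [A2, E, th2]
          constructor
          · rintro ((h | h) | (h | h))
            · exact Or.inl h.2
            · exact Or.inr h.2
            · exact absurd h.1 (by decide)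
            · exact Or.inr ⟨h.2.1.symm, this.1 h.2.2⟩
          · rintro (h | h)
            · exact Or.inl (Or.inl ⟨by decide, h⟩)
            · exact Or.inl (Or.inr ⟨by decide, h⟩))
        (by
          intro y hy
          change y < 2 * B * w at hy
          constructor
          · rintro ⟨_, _, h | h⟩
            · omega
            · omega
          · rintro ⟨h1, _⟩
            have h2 : B * w ≤ y := by omega
            exact ⟨lt_of_lt_of_le hqB ((hbl y B).2 h2), h2, Or.inr (by omega)⟩)
        (fun y h => h.1.ne)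
    have c1 : cnt B w v H (.r 2 : Kd p) z (.r 1) = D :=
      sparse hHN hreg hw _ _ _ (z / w) (by exact hq1) (by
          intro y _
          have := Hn_symm (H := H) (y % w) (z % w)
          simp only [A2, E, th1]
          constructor
          · rintro ((h | h) | (h | h))
            · exact absurd h.1 (by decide)
            · exact h.2
            · exact absurd h.2.2.1 (by omega)
            · exact ⟨h.2.1.symm, this.1 h.2.2⟩
          · intro h
            exact Or.inl (Or.inr ⟨by decide, h⟩))
    have cu2 : cnt B w v H (.r 2 : Kd p) z .u2 = 2 * w * v - w := by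
      rw [cnt_congr _ _ _ (fun l => w ≤ (z + l) % (2 * w * v)) (by
        intro y _
        simp [A2, E, hzZ])]
      have h9 := card_mod (2 * w * v) z w
      have h8 : sz B w v (Kd.u2 : Kd p) = 2 * w * v := rfl
      rw [h8]
      refine Eq.trans ?_ h9
      congr!
    unfold dg
    simp only [c0, c1, c2, ca, cb, cu0, cu1, cu2, cl1, cl2, sum_const, card_univ, Fintype.card_fin, smul_eq_mul]
    rw [show (2 * p + 2) * D = p * D + p * D + D + D by ring]
    omega
  · have hqB : B ≤ z / w := (hbl z B).2 (by omega)
    have c0 : cnt B w v H (.r 2 : Kd p) z (.r 0) = (2 * B * w - (z / w + 1) * w) + D :=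
      dense hHN hreg hw _ _ _ (z / w) (by exact hq1) _ _ le_rfl
        (fun y => z / w < y / w ∧ B * w ≤ y ∧ (B * w ≤ z ∨ 2 * B * w - 1 ≤ z + y)) (by
          intro y _
          have := Hn_symm (H := H) (y % w) (z % w)
          simp only [A2, E, th2]
          constructor
          · rintro ((h | h) | (h | h))
            · exact Or.inl h.2
            · exact Or.inr h.2
            · exact absurd h.1 (by decide)
            · exact Or.inr ⟨h.2.1.symm, this.1 h.2.2⟩
          · rintro (h | h)
            · exact Or.inl (Or.inl ⟨by decide, h⟩)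
            · exact Or.inl (Or.inr ⟨by decide, h⟩))
        (by
          intro y hy
          change y < 2 * B * w at hy
          constructor
          · rintro ⟨h, _⟩
            exact ⟨(hbl y _).1 h, hy⟩
          · rintro ⟨h1, _⟩
            exact ⟨(hbl y _).2 h1, by omega, Or.inl (by omega)⟩)
        (fun y h => h.1.ne)
    have c1 : cnt B w v H (.r 2 : Kd p) z (.r 1) = (z / w * w - (2 * B * w - 1 - z)) + D :=
      dense hHN hreg hw _ _ _ (z / w) (by exact hq1) _ _ (by show _ ≤ 2 * B * w; omega)
        (fun y => y / w < z / w ∧ B * w ≤ z ∧ (B * w ≤ y ∨ 2 * B * w - 1 ≤ y + z)) (by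
          intro y _
          have := Hn_symm (H := H) (y % w) (z % w)
          simp only [A2, E, th1]
          constructor
          · rintro ((h | h) | (h | h))
            · exact absurd h.1 (by decide)
            · exact Or.inr h.2
            · exact Or.inl h.2
            · exact Or.inr ⟨h.2.1.symm, this.1 h.2.2⟩
          · rintro (h | h)
            · exact Or.inr (Or.inl ⟨by decide, h⟩)
            · exact Or.inl (Or.inr ⟨by decide, h⟩))
        (by
          intro y hy
          change y < 2 * B * w at hy
          constructor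
          · rintro ⟨h, _, h2⟩
            exact ⟨by omega, (hbw y _).1 h⟩
          · rintro ⟨h1, h2⟩
            exact ⟨(hbw y _).2 h2, by omega, Or.inr (by omega)⟩)
        (fun y h => h.1.ne')
    have cu2 : cnt B w v H (.r 2 : Kd p) z .u2 = 2 * w * v := by
      rw [cnt_congr _ _ _ (fun l => True) (by
        intro y _
        simp [A2, E, hzZ])]
      rw [filter_true, card_range]
      rfl
    have hqBw : B * w ≤ z / w * w := Nat.mul_le_mul_right w hqB
    unfold dg
    simp only [c0, c1, c2, ca, cb, cu0, cu1, cu2, cl1, cl2, sum_const, card_univ, Fintype.card_fin, smul_eq_mul]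
    rw [show (2 * p + 2) * D = p * D + p * D + D + D by ring]
    omega

theorem t_DA (hHN : S_HN) : S_DA := by
  intro p B w v m D H hP i x hx
  have hw := hP.hw
  have hreg := hP.hreg
  have hv0 := hP.hv
  have hzq : x / w * w ≤ x := Nat.div_mul_le_self x w
  have hbw : ∀ y q : ℕ, (y / w < q ↔ y < q * w) := fun y q => Nat.div_lt_iff_lt_mul hw
  have hbl : ∀ y q : ℕ, (q ≤ y / w ↔ q * w ≤ y) := fun y q => Nat.le_div_iff_mul_le hw
  have cu0 : cnt B w v H (.a i : Kd p) x .u0 = 0 := cnt_zero _ _ _ (by
    intro y _
    simp [A2, E])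
  have cu2 : cnt B w v H (.a i : Kd p) x .u2 = 0 := cnt_zero _ _ _ (by
    intro y _
    simp [A2, E])
  have cl1 : cnt B w v H (.a i : Kd p) x .l1 = 0 := cnt_zero _ _ _ (by
    intro y _
    simp [A2, E])
  have cl2 : cnt B w v H (.a i : Kd p) x .l2 = 0 := cnt_zero _ _ _ (by
    intro y _
    simp [A2, E])
  have cbi : cnt B w v H (.a i : Kd p) x (.b i) = x + 1 := by
    rw [cnt_congr _ _ _ (fun y => y ≤ x) (by
      intro y _
      simp [A2, E])]
    exact card_int _ 0 (x + 1) _ (by show _ ≤ 2 * B * w + w; omega) (by intro y _; omega)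
  by_cases hxN : x < 2 * B * w
  · rw [if_pos hxN]
    have hq : x / w < 2 * B := (hbw x _).2 hxN
    have hq1 : (x / w + 1) * w ≤ 2 * B * w := Nat.mul_le_mul_right w hq
    have cr : ∀ j : Fin 3, cnt B w v H (.a i : Kd p) x (.r j) = D := fun j =>
      sparse hHN hreg hw _ _ _ (x / w) (by exact hq1) (by
        intro y _
        have := Hn_symm (H := H) (y % w) (x % w)
        simp only [A2, E, false_or]
        rw [this, eq_comm])
    have ca : ∀ j : Fin p, cnt B w v H (.a i : Kd p) x (.a j) = if j = i then 0 else D := fun j => by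
      by_cases hj : j = i
      · rw [if_pos hj, hj]
        exact cnt_zero _ _ _ (by
          intro y _
          simp [A2, E])
      · rw [if_neg hj]
        refine sparse hHN hreg hw _ _ _ (x / w) (by show _ ≤ 2 * B * w + w; omega) (by
          intro y _
          have := Hn_symm (H := H) (y % w) (x % w)
          simp only [A2, E]
          constructor
          · rintro (h | h)
            · exact ⟨h.2.1, h.2.2.2⟩
            · exact ⟨h.2.1.symm, this.1 h.2.2.2⟩
          · intro h
            exact Or.inl ⟨fun h => hj h.symm, h.1, hq, h.2⟩)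
    have cb : ∀ j : Fin p, cnt B w v H (.a i : Kd p) x (.b j) = (if j = i then 0 else D) +
        (if j = i then x + 1 else 0) := fun j => by
      by_cases hj : j = i
      · rw [if_pos hj, if_pos hj, hj, cbi, zero_add]
      · rw [if_neg hj, if_neg hj, add_zero]
        refine sparse hHN hreg hw _ _ _ (x / w + 1) (by show _ ≤ 2 * B * w + w; rw [add_mul, one_mul]; omega) (by
          intro y _
          have := Hn_symm (H := H) (y % w) (x % w)
          simp only [A2, E]
          constructor
          · rintro ((h | h) | h)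
            · exact absurd h.1.symm hj
            · exact h.2
            · exact h.elim
          · intro h
            exact Or.inl (Or.inr ⟨fun h => hj h.symm, h⟩))
    have cu1 : cnt B w v H (.a i : Kd p) x .u1 = 0 := cnt_zero _ _ _ (by
      intro y _
      simp only [A2, E, or_false]
      intro h
      exact absurd h.1 (by omega))
    unfold dg
    rw [sum_congr rfl (fun j _ => ca j), sum_congr rfl (fun j _ => cb j), sum_add_distrib, cr, cr, cr,
      cu0, cu1, cu2, cl1, cl2]
    have e1 := sum_ne i D
    have e2 : ∑ j : Fin p, (if j = i then x + 1 else 0) = x + 1 := by simp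
    rw [e2, show (2 * p + 1) * D = p * D + p * D + D by ring]
    omega
  · rw [if_neg hxN]
    have hq : 2 * B ≤ x / w := (hbl x _).2 (by omega)
    have cr : ∀ j : Fin 3, cnt B w v H (.a i : Kd p) x (.r j) = 0 := fun j =>
      cnt_zero _ _ _ (by
        intro y hy
        have h1 : y / w < 2 * B := (hbw y _).2 hy
        simp only [A2, E, false_or]
        intro h
        omega)
    have ca : ∀ j : Fin p, cnt B w v H (.a i : Kd p) x (.a j) = 0 := fun j =>
      cnt_zero _ _ _ (by
        intro y _
        simp only [A2, E]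
        rintro (h | h)
        · omega
        · omega)
    have cb : ∀ j : Fin p, cnt B w v H (.a i : Kd p) x (.b j) = (if j = i then x + 1 else 0) := fun j => by
      by_cases hj : j = i
      · rw [if_pos hj, hj, cbi]
      · rw [if_neg hj]
        refine cnt_zero _ _ _ (by
          intro y hy
          have h1 : y / w < 2 * B + 1 := (hbw y _).2 (by rw [add_mul, one_mul]; exact hy)
          simp only [A2, E]
          rintro ((h | h) | h)
          · exact hj h.1.symm
          · omega
          · exact h.elim)
    have cu1 : cnt B w v H (.a i : Kd p) x .u1 = (2 * p + 3) * w := by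
      have e1 : (2 * p + 3) * w ≤ v * w := Nat.mul_le_mul_right w (by omega)
      have e2 : w * v = v * w := mul_comm _ _
      rw [cnt_congr _ _ _ (fun j => w * v ≤ j + (2 * p + 3) * w) (by
        intro y _
        simp only [A2, E, or_false]
        exact ⟨fun h => h.2, fun h => ⟨by omega, h⟩⟩)]
      have := card_int (w * v) (w * v - (2 * p + 3) * w) (w * v) (fun j => w * v ≤ j + (2 * p + 3) * w) le_rfl (by
        intro y hy
        constructor
        · intro h; exact ⟨by omega, hy⟩
        · rintro ⟨h, _⟩; omega)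
      refine this.trans ?_
      omega
    unfold dg
    rw [sum_congr rfl (fun j _ => ca j), sum_congr rfl (fun j _ => cb j), cr, cr, cr,
      cu0, cu1, cu2, cl1, cl2]
    have e2 : ∑ j : Fin p, (if j = i then x + 1 else 0) = x + 1 := by simp
    rw [e2]
    simp

end Run7.h24.RO
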